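import Pool.Agent.H66.L.S8.TH80.CLX.Main

/-!
# Two special cases: diffeomorphisms commuting with a compact Lie group; cocycles over rotations
-/

set_option autoImplicit false
set_option linter.unusedSectionVars false

open scoped Manifold ContDiff Topology NNReal
open Filter Set Metric

universe u

namespace Pool.Agent.TH80.CLX

open Pool.Agent.H718R2.G Pool.Agent.W564.SC Pool.Agent.TH290.CL

variable {n : ℕ} {N : Type u} [TopologicalSpace N] [ChartedSpace (V n) N]

theorem homPer_of_commute {G : Type} [Group G] [TopologicalSpace G] [CompactSpace G] {q : ℕ}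
    {ι : G →* Matrix (Fin q) (Fin q) ℂ} {act : G → N → N} (hact : IsLieAction n N ι univ act)
    (F : N → N) (hF : ∀ g y, F (act g y) = act g (F y)) (y : N)
    (h : ∃ m : ℕ, 1 ≤ m ∧ ∃ g, F^[m] y = act g y) : IsHomPer n N F y := by
  classical
  have hit : ∀ (i : ℕ) g, F^[i] (act g y) = act g (F^[i] y) := by
    intro i g
    induction i with
    | zero => rfl
    | succ i ih => rw [Function.iterate_succ_apply', ih, hF, Function.iterate_succ_apply' F]
  refine ⟨G, inferInstance, inferInstance, inferInstance, q, ι, univ, act, hact, mem_univ _,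
    Nat.find h, (Nat.find_spec h).1, (Nat.find_spec h).2, fun g => hit _ g,
    fun i hi1 hi2 a b hab => ?_⟩
  apply Nat.find_min h hi2
  refine ⟨hi1, a⁻¹ * b, ?_⟩
  rw [hact.mul _ _ _ (mem_univ _), ← hab, hit, ← hact.mul _ _ _ (mem_univ _), inv_mul_cancel,
    hact.one _ (mem_univ _)]

variable [T2Space N] [CompactSpace N] [IsManifold (𝓡 n) ∞ N]

/-- If `F` commutes with a smooth action of a compact Lie group `G`, then the closing lemma holds at
every limit of relative periodic points, i.e. points with `F^m(y) ∈ G y` for some `m ≥ 1`. -/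
theorem equivariant (r : ℕ∞) (hr : 1 ≤ r) {G : Type} [Group G] [TopologicalSpace G]
    [CompactSpace G] {q : ℕ} {ι : G →* Matrix (Fin q) (Fin q) ℂ} {act : G → N → N}
    (hact : IsLieAction n N ι univ act) (F : DiffM n N r)
    (hF : ∀ g y, F (act g y) = act g (F y)) (z : N)
    (hz : z ∈ closure {y | ∃ m : ℕ, 1 ≤ m ∧ ∃ g, F^[m] y = act g y}) : Closable n N r F z :=
  main r hr F z fun _ _ hFU => ⟨F, hFU, closure_mono (fun y hy => homPer_of_commute hact F hF y hy) hz⟩

theorem rational_shift (l : ℕ) (α : V l) (κ : ℝ) (hκ : 0 < κ) :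
    ∃ β : V l, ‖β‖ < κ ∧ ∃ m : ℕ, 1 ≤ m ∧ ∀ i, ∃ k : ℤ, ((m : ℝ) • (α + β)) i = k := by
  let b : ℕ → V l := fun m => WithLp.toLp 2 fun i => (round ((m + 1 : ℝ) * α i) : ℝ) / (m + 1) - α i
  have hb : ∀ m i, b m i = (round ((m + 1 : ℝ) * α i) : ℝ) / (m + 1) - α i := fun m i => rfl
  have h1 : Tendsto b atTop (𝓝 0) := by
    have h2 : Tendsto (fun (m : ℕ) (i : Fin l) => (round ((m + 1 : ℝ) * α i) : ℝ) / (m + 1) - α i)
        atTop (𝓝 0) := by
      rw [tendsto_pi_nhds]
      intro i
      refine squeeze_zero_norm (fun m => ?_) tendsto_one_div_add_atTop_nhds_zero_nat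
      have h3 : (0 : ℝ) < (m : ℝ) + 1 := by positivity
      have h4 : (round ((m + 1 : ℝ) * α i) : ℝ) / (m + 1) - α i =
          -(((m + 1 : ℝ) * α i - round ((m + 1 : ℝ) * α i)) / (m + 1)) := by
        field_simp
        ring
      rw [h4, norm_neg, norm_div, Real.norm_eq_abs, Real.norm_eq_abs, abs_of_pos h3]
      have h5 := abs_sub_round ((m + 1 : ℝ) * α i)
      gcongr
      linarith
    have h3 := ((PiLp.continuous_toLp 2 (fun _ : Fin l => ℝ)).tendsto 0).comp h2
    exact h3
  obtain ⟨m, hm⟩ := ((h1.norm).eventually (by rw [norm_zero]; exact gt_mem_nhds hκ)).exists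
  refine ⟨b m, hm, m + 1, by omega, fun i => ⟨round ((m + 1 : ℝ) * α i), ?_⟩⟩
  rw [PiLp.smul_apply, PiLp.add_apply, hb]
  have : ((m : ℝ) + 1) ≠ 0 := by positivity
  push_cast
  simp only [smul_eq_mul]
  field_simp
  ring

/-- Cocycles over rotations: let `R` be a smooth action of `ℝˡ` commuting with the action of the compact
Lie group `G`, such that integer vectors act through `G` (so that `R` induces an action of the torus
on the space of the `G`-orbits), let `F` commute with `G`, and `F(y) ∈ G R_α(y)` for all `y`. Then the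
closing lemma holds at every point. For `N = 𝕋ˡ × G` these are the diffeomorphisms
`(θ, x) ↦ (θ + α, A(θ) x)`, `A : 𝕋ˡ → G` arbitrary. -/
theorem cocycle (r : ℕ∞) (hr : 1 ≤ r) {G : Type} [Group G] [TopologicalSpace G]
    [CompactSpace G] {q : ℕ} {ι : G →* Matrix (Fin q) (Fin q) ℂ} {act : G → N → N}
    (hact : IsLieAction n N ι univ act) {l : ℕ} (R : V l → N → N)
    (hR : ContMDiff ((𝓡 l).prod (𝓡 n)) (𝓡 n) ∞ (fun p : V l × N => R p.1 p.2))
    (hR0 : ∀ y, R 0 y = y) (hRadd : ∀ s t y, R (s + t) y = R s (R t y))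
    (hRG : ∀ t g y, R t (act g y) = act g (R t y))
    (hint : ∀ t : V l, (∀ i, ∃ k : ℤ, t i = k) → ∀ y, ∃ g, R t y = act g y)
    (F : DiffM n N r) (hF : ∀ g y, F (act g y) = act g (F y))
    (α : V l) (hα : ∀ y, ∃ g, F y = act g (R α y)) (z : N) : Closable n N r F z := by
  have hr' : (r : WithTop ℕ∞) ≤ ∞ := by exact_mod_cast le_top
  apply main r hr F z
  intro U hU hFU
  have hRs : ∀ s : V l, ContMDiff (𝓡 n) (𝓡 n) r (R s) := by
    intro s
    have h1 : ContMDiff (𝓡 n) ((𝓡 l).prod (𝓡 n)) ∞ (fun y : N => ((s, y) : V l × N)) :=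
      contMDiff_const.prodMk contMDiff_id
    exact (hR.comp h1).of_le hr'
  let T : V l → DiffM n N r := fun s =>
    { toFun := R s
      invFun := R (-s)
      left_inv := fun y => by rw [← hRadd, neg_add_cancel, hR0]
      right_inv := fun y => by rw [← hRadd, add_neg_cancel, hR0]
      contMDiff_toFun := hRs s
      contMDiff_invFun := hRs (-s) }
  obtain ⟨H, hH⟩ : ∃ H : V l → DiffM n N r, ∀ s y, H s y = F (R s y) :=
    ⟨fun s => (T s).trans F, fun s y => rfl⟩
  have hH0 : H 0 = F := by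
    ext y
    rw [hH, hR0]
  have hfam : IsFam n N r H := by
    intro y
    have e1 : (fun p : V l × N => H p.1 p.2) = fun p => F (R p.1 p.2) := by
      funext p
      exact hH _ _
    rw [e1]
    exact (F.contMDiff.comp (hR.of_le hr')).contMDiffAt
  obtain ⟨κ, hκ, hmem⟩ := fam_mem r hr H hfam z U hU (by rw [hH0]; exact hFU)
  obtain ⟨β, hβ, m, hm, hmi⟩ := rational_shift l α κ hκ
  refine ⟨H β, hmem β hβ, subset_closure ?_⟩
  have hHG : ∀ g y, H β (act g y) = act g (H β y) := by
    intro g y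
    rw [hH, hH, hRG, hF]
  have hit : ∀ i : ℕ, ∃ g, (H β)^[i] z = act g (R ((i : ℝ) • (α + β)) z) := by
    intro i
    induction i with
    | zero =>
      refine ⟨1, ?_⟩
      rw [Nat.cast_zero, zero_smul, hR0, hact.one _ (mem_univ _)]
      rfl
    | succ i ih =>
      obtain ⟨g, hg⟩ := ih
      obtain ⟨g', hg'⟩ := hα (R β (R ((i : ℝ) • (α + β)) z))
      refine ⟨g * g', ?_⟩
      rw [Function.iterate_succ_apply', hg, hHG, hH, hg', hact.mul _ _ _ (mem_univ _), ← hRadd,
        ← hRadd]
      congr 3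
      push_cast
      module
  obtain ⟨g, hg⟩ := hit m
  obtain ⟨g', hg'⟩ := hint _ hmi z
  refine homPer_of_commute hact (H β) hHG z ⟨m, hm, g * g', ?_⟩
  rw [hg, hg', hact.mul _ _ _ (mem_univ _)]

end Pool.Agent.TH80.CLX
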