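import Pool.Agent.H66.L.S8.TH80.CLX.Step

/-!
# Closing at limits of homogeneous periodic submanifolds
-/

set_option autoImplicit false
set_option linter.unusedSectionVars false

open scoped Manifold ContDiff Topology NNReal
open Filter Set Metric

universe u

namespace Pool.Agent.TH80.CLX

open Pool.Agent.H718R2.G Pool.Agent.W564.SC Pool.Agent.TH290.CL

variable {n : ℕ} {N : Type u} [TopologicalSpace N] [T2Space N] [CompactSpace N]
  [ChartedSpace (V n) N] [IsManifold (𝓡 n) ∞ N]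

omit [T2Space N] [CompactSpace N] [IsManifold (𝓡 n) ∞ N] in
theorem conj_action (Ψ : DiffM n N ⊤) {G : Type} [Group G] [TopologicalSpace G] {q : ℕ}
    {ι : G →* Matrix (Fin q) (Fin q) ℂ} {O : Set N} {act : G → N → N}
    (h : IsLieAction n N ι O act) :
    IsLieAction n N ι (Ψ ⁻¹' O) (fun g y => Ψ.symm (act g (Ψ y))) := by
  have hm : ∀ {X : Type} {p : X × N}, p ∈ (univ : Set X) ×ˢ (Ψ ⁻¹' O) →
      (p.1, Ψ p.2) ∈ (univ : Set X) ×ˢ O := fun hp => ⟨mem_univ _, hp.2⟩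
  refine ⟨h.rep_cont, h.rep_inj, h.isOpen.preimage Ψ.continuous, fun g y hy => ?_, fun y hy => ?_,
    fun g g' y hy => ?_, ?_, fun j c hc => ?_⟩
  · show Ψ (Ψ.symm (act g (Ψ y))) ∈ O
    rw [Ψ.apply_symm_apply]
    exact h.maps g _ hy
  · show Ψ.symm (act 1 (Ψ y)) = y
    rw [h.one _ hy, Ψ.symm_apply_apply]
  · show Ψ.symm (act (g * g') (Ψ y)) = Ψ.symm (act g (Ψ (Ψ.symm (act g' (Ψ y)))))
    rw [Ψ.apply_symm_apply, h.mul _ _ _ hy]
  · have h1 : ContinuousOn (fun p : G × N => act p.1 (Ψ p.2)) (univ ×ˢ (Ψ ⁻¹' O)) :=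
      h.cont.comp (f := fun p : G × N => (p.1, Ψ p.2))
        (continuous_fst.prodMk (Ψ.continuous.comp continuous_snd)).continuousOn
        (fun p hp => hm hp)
    exact Ψ.symm.continuous.comp_continuousOn h1
  · have h1 : ContMDiff ((𝓡 j).prod (𝓡 n)) ((𝓡 j).prod (𝓡 n)) ∞
        (fun p : V j × N => ((p.1, Ψ p.2) : V j × N)) :=
      contMDiff_fst.prodMk (Ψ.contMDiff.comp contMDiff_snd)
    have h2 := (h.smooth j c hc).comp (f := fun p : V j × N => ((p.1, Ψ p.2) : V j × N))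
      (s := (univ : Set (V j)) ×ˢ (Ψ ⁻¹' O)) h1.contMDiffOn (fun p hp => hm hp)
    exact Ψ.symm.contMDiff.comp_contMDiffOn h2

omit [T2Space N] [CompactSpace N] [IsManifold (𝓡 n) ∞ N] in
theorem conj_homPer (Ψ : DiffM n N ⊤) (F H : N → N) (hH : ∀ y, H y = Ψ.symm (F (Ψ y))) (z : N)
    (h : IsHomPer n N F (Ψ z)) : IsHomPer n N H z := by
  obtain ⟨G, iG, iT, iC, q, ι, O, act, hact, hzO, m, hm, ⟨g, hg⟩, hcom, hdis⟩ := h
  have hit : ∀ (i : ℕ) (y : N), H^[i] y = Ψ.symm (F^[i] (Ψ y)) := by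
    intro i y
    induction i with
    | zero => exact (Ψ.symm_apply_apply y).symm
    | succ i ih =>
      rw [Function.iterate_succ_apply', ih, hH, Ψ.apply_symm_apply,
        Function.iterate_succ_apply' F]
  refine ⟨G, iG, iT, iC, q, ι, Ψ ⁻¹' O, fun g y => Ψ.symm (act g (Ψ y)), conj_action Ψ hact, hzO,
    m, hm, ⟨g, ?_⟩, fun g => ?_, fun i hi1 hi2 a b h => ?_⟩
  · show H^[m] z = Ψ.symm (act g (Ψ z))
    rw [hit, hg]
  · show H^[m] (Ψ.symm (act g (Ψ z))) = Ψ.symm (act g (Ψ (H^[m] z)))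
    rw [hit, hit, Ψ.apply_symm_apply, Ψ.apply_symm_apply, hcom]
  · have h' : H^[i] (Ψ.symm (act a (Ψ z))) = Ψ.symm (act b (Ψ z)) := h
    rw [hit, Ψ.apply_symm_apply] at h'
    exact hdis i hi1 hi2 a b (Ψ.symm.injective h')

/-- Closing at limits of points of homogeneous periodic submanifolds. -/
theorem main (r : ℕ∞) (hr : 1 ≤ r) (F : DiffM n N r) (z : N)
    (h : ∀ U : Set (DiffM n N r), IsOpen[strongTop n N r] U → F ∈ U →
      ∃ F' ∈ U, z ∈ closure {y | IsHomPer n N F' y}) : Closable n N r F z := by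
  intro U hU hFU
  obtain ⟨F', hF'U, hz⟩ := h U hU hFU
  have hr' : (r : WithTop ℕ∞) ≤ ∞ := by exact_mod_cast le_top
  obtain ⟨χ, hχ⟩ := Pool.Agent.W699.SC.gc n N z
  obtain ⟨Ψ, κ, hκ, hΨ0, hΨs, hΨs', hΨt⟩ := Pool.Agent.W782.SC.psi n N ⊤ χ z hχ
  let T : V n → DiffM n N r := fun x =>
    { toEquiv := (Ψ x).toEquiv
      contMDiff_toFun := (Ψ x).contMDiff_toFun.of_le hr'
      contMDiff_invFun := (Ψ x).contMDiff_invFun.of_le hr' }
  have hT : ∀ x y, T x y = Ψ x y := fun x y => rfl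
  have hT' : ∀ x y, (T x).symm y = (Ψ x).symm y := fun x y => rfl
  obtain ⟨H, hH⟩ : ∃ H : V n → DiffM n N r, ∀ x y, H x y = (Ψ x).symm (F' (Ψ x y)) :=
    ⟨fun x => (T x).trans (F'.trans (T x).symm), fun x y => rfl⟩
  have hΨ0' : ∀ y, (Ψ 0).symm y = y := by
    intro y
    have := (Ψ 0).symm_apply_apply y
    rwa [hΨ0] at this
  have hH0 : H 0 = F' := by
    ext y
    rw [hH, hΨ0, hΨ0']
  have hfam : IsFam n N r H := by
    intro y
    have e1 : (fun p : V n × N => H p.1 p.2) = fun p => (Ψ p.1).symm (F' (Ψ p.1 p.2)) := by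
      funext p
      exact hH _ _
    rw [e1]
    have s1 : ContMDiff ((𝓡 n).prod (𝓡 n)) (𝓡 n) r (fun p : V n × N => Ψ p.1 p.2) :=
      hΨs.of_le hr'
    have s2 : ContMDiff ((𝓡 n).prod (𝓡 n)) (𝓡 n) r (fun p : V n × N => F' (Ψ p.1 p.2)) :=
      F'.contMDiff.comp s1
    have s3 : ContMDiff ((𝓡 n).prod (𝓡 n)) ((𝓡 n).prod (𝓡 n)) r
        (fun p : V n × N => ((p.1, F' (Ψ p.1 p.2)) : V n × N)) := contMDiff_fst.prodMk s2
    have s4 : ContMDiff ((𝓡 n).prod (𝓡 n)) (𝓡 n) r (fun p : V n × N => (Ψ p.1).symm p.2) :=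
      hΨs'.of_le hr'
    exact (s4.comp s3).contMDiffAt
  obtain ⟨κ', hκ', hmem⟩ := fam_mem r hr H hfam z U hU (by rw [hH0]; exact hF'U)
  have hW : {y : N | y ∈ χ.source ∧ ‖χ y‖ < min κ κ'} ∈ 𝓝 z := by
    have h5 : χ.source ∈ 𝓝 z := χ.open_source.mem_nhds hχ.src
    have h6 : ContinuousAt (fun y => ‖χ y‖) z := (χ.continuousAt hχ.src).norm
    have h7 : ∀ᶠ y in 𝓝 z, ‖χ y‖ < min κ κ' := by
      have h8 : ‖χ z‖ < min κ κ' := by rw [hχ.zero, norm_zero]; exact lt_min hκ hκ'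
      exact h6.eventually_lt_const h8
    filter_upwards [h5, h7] with y hy1 hy2
    exact ⟨hy1, hy2⟩
  obtain ⟨y, ⟨hy1, hy2⟩, hy3⟩ := mem_closure_iff_nhds.1 hz _ hW
  obtain ⟨h1, h2⟩ := hΨt (χ y) (hy2.trans_le (min_le_left _ _)) z hχ.src
    (by rw [hχ.zero, norm_zero]; norm_num)
  have h3 : Ψ (χ y) z = y := by
    apply χ.injOn h1 hy1
    rw [h2, hχ.zero, zero_add]
  have h4 : IsHomPer n N (H (χ y)) z :=
    conj_homPer (Ψ (χ y)) F' (H (χ y)) (hH _) z (by rw [h3]; exact hy3)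
  exact closable_of_homPer r hr (H (χ y)) z h4 U hU (hmem _ (hy2.trans_le (min_le_right _ _)))

end Pool.Agent.TH80.CLX
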