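import Mathlib

/-!
# Closed subgroups of a commutative algebra; approximation by elements of finite order
-/

set_option autoImplicit false

open scoped ContDiff Topology
open Filter Set Metric

namespace Pool.Agent.TH80.CLX

open NormedSpace

section alg

variable {A : Type*} [NormedCommRing A] [NormedAlgebra ℝ A] [FiniteDimensional ℝ A]

theorem exp_add' (x y : A) : exp (x + y) = exp x * exp y := by
  have : CompleteSpace A := FiniteDimensional.complete ℝ A
  let : NormedAlgebra ℚ A := NormedAlgebra.restrictScalars ℚ ℝ A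
  exact exp_add_of_commute (Commute.all x y)

theorem exp_nsmul' (n : ℕ) (x : A) : exp ((n : ℝ) • x) = exp x ^ n := by
  induction n with
  | zero => simp
  | succ n ih =>
    rw [Nat.cast_succ, add_smul, one_smul, exp_add', ih, pow_succ]

theorem exp_cont : Continuous (exp : A → A) := by
  have : CompleteSpace A := FiniteDimensional.complete ℝ A
  let : NormedAlgebra ℚ A := NormedAlgebra.restrictScalars ℚ ℝ A
  exact exp_continuous

theorem exp_smooth : ContDiff ℝ ∞ (exp : A → A) := by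
  have : CompleteSpace A := FiniteDimensional.complete ℝ A
  rw [contDiff_iff_contDiffAt]
  intro x
  exact (exp_analytic (𝕂 := ℝ) x).contDiffAt

/-- The exponential map is onto a neighbourhood of `1`. -/
theorem exp_onto (ε : ℝ) (hε : 0 < ε) :
    ∃ η : ℝ, 0 < η ∧ ∀ a : A, ‖a - 1‖ < η → ∃ y : A, ‖y‖ < ε ∧ exp y = a := by
  have : CompleteSpace A := FiniteDimensional.complete ℝ A
  have h1 : HasStrictFDerivAt (exp : A → A) ((ContinuousLinearEquiv.refl ℝ A : A ≃L[ℝ] A) : A →L[ℝ] A) 0 :=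
    hasStrictFDerivAt_exp_zero (𝕂 := ℝ)
  have h2 := h1.map_nhds_eq_of_equiv
  rw [exp_zero] at h2
  have h3 : (exp : A → A) '' ball 0 ε ∈ 𝓝 (1 : A) := by
    rw [← h2]
    exact image_mem_map (ball_mem_nhds 0 hε)
  obtain ⟨η, hη, h4⟩ := Metric.mem_nhds_iff.1 h3
  refine ⟨η, hη, fun a ha => ?_⟩
  obtain ⟨y, hy, hya⟩ := h4 (by rw [mem_ball, dist_eq_norm]; exact ha : a ∈ ball (1 : A) η)
  exact ⟨y, by simpa using hy, hya⟩

/-- The closed subgroup theorem in a commutative algebra. -/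
theorem closed_subgroup (S : Set A) (hS : IsClosed S) (h1 : (1 : A) ∈ S)
    (hmul : ∀ a ∈ S, ∀ b ∈ S, a * b ∈ S) (hinv : ∀ a ∈ S, ∃ b ∈ S, a * b = 1) :
    ∃ W : Submodule ℝ A, (∀ x ∈ W, exp x ∈ S) ∧ ∃ δ : ℝ, 0 < δ ∧
      ∀ x : A, ‖x‖ < δ → exp x ∈ S → x ∈ W := by
  obtain ⟨W, hW⟩ : ∃ W : Submodule ℝ A, ∀ x, x ∈ W ↔ ∀ t : ℝ, exp (t • x) ∈ S := by
    refine ⟨{ carrier := {x | ∀ t : ℝ, exp (t • x) ∈ S}
              add_mem' := ?_
              zero_mem' := ?_
              smul_mem' := ?_ }, fun x => Iff.rfl⟩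
    · intro x y hx hy t
      rw [smul_add, exp_add']
      exact hmul _ (hx t) _ (hy t)
    · intro t
      rw [smul_zero, exp_zero]
      exact h1
    · intro r x hx t
      rw [smul_smul]
      exact hx _
  have hneg : ∀ x, exp x ∈ S → exp (-x) ∈ S := by
    intro x hx
    obtain ⟨b, hb, hab⟩ := hinv _ hx
    have h2 : exp (-x) * exp x = 1 := by
      rw [← exp_add', neg_add_cancel, exp_zero]
    have h3 : exp (-x) = b := by
      calc exp (-x) = exp (-x) * (exp x * b) := by rw [hab, mul_one]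
        _ = (exp (-x) * exp x) * b := by ring
        _ = b := by rw [h2, one_mul]
    rw [h3]
    exact hb
  have hpow : ∀ (n : ℕ) x, exp x ∈ S → exp ((n : ℝ) • x) ∈ S := by
    intro n x hx
    rw [exp_nsmul']
    induction n with
    | zero => simpa using h1
    | succ n ih =>
      rw [pow_succ]
      exact hmul _ ih _ hx
  have hzpow : ∀ (n : ℤ) x, exp x ∈ S → exp ((n : ℝ) • x) ∈ S := by
    intro n x hx
    obtain ⟨m, rfl | rfl⟩ := n.eq_nat_or_neg
    · exact_mod_cast hpow m x hx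
    · have := hneg _ (hpow m x hx)
      rw [← neg_smul] at this
      exact_mod_cast this
  refine ⟨W, fun x hx => by simpa using (hW x).1 hx 1, ?_⟩
  by_contra hcon
  push Not at hcon
  obtain ⟨W', hW'⟩ := Submodule.exists_isCompl W
  have hpr := hcon
  -- a sequence in the complement
  have hcW : Continuous (Submodule.projection W W' hW') := LinearMap.continuous_of_finiteDimensional _
  have hcW' : Continuous (Submodule.projection W' W hW'.symm) :=
    LinearMap.continuous_of_finiteDimensional _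
  have hseq : ∀ n : ℕ, ∃ x : A, x ∈ W' ∧ x ≠ 0 ∧ ‖x‖ < 1 / ((n : ℝ) + 1) ∧ exp x ∈ S := by
    intro n
    have hn : (0 : ℝ) < 1 / ((n : ℝ) + 1) := by positivity
    have h2 : ∀ᶠ x in 𝓝 (0 : A), ‖Submodule.projection W' W hW'.symm x‖ < 1 / ((n : ℝ) + 1) := by
      have h3 : Tendsto (fun x : A => ‖Submodule.projection W' W hW'.symm x‖) (𝓝 0)
          (𝓝 ‖Submodule.projection W' W hW'.symm 0‖) := (hcW'.norm).tendsto 0
      rw [map_zero, norm_zero] at h3
      exact h3.eventually (gt_mem_nhds hn)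
    obtain ⟨δ, hδ, h4⟩ := Metric.eventually_nhds_iff.1 h2
    obtain ⟨x, hx1, hx2, hx3⟩ := hcon δ hδ
    refine ⟨Submodule.projection W' W hW'.symm x, Submodule.projection_apply_mem _ _,
      ?_, h4 (by rwa [dist_zero_right]), ?_⟩
    · intro h5
      apply hx3
      have h6 := Submodule.projection_add_projection_eq_self hW' x
      rw [h5, add_zero] at h6
      rw [← h6]
      exact Submodule.projection_apply_mem _ _
    · have h6 := Submodule.projection_add_projection_eq_self hW' x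
      have h7 : Submodule.projection W' W hW'.symm x = x + -(Submodule.projection W W' hW' x) := by
        rw [← sub_eq_add_neg]
        exact eq_sub_of_add_eq' h6
      have h8 : exp (Submodule.projection W W' hW' x) ∈ S := by
        have h9 : Submodule.projection W W' hW' x ∈ W := Submodule.projection_apply_mem _ _
        simpa using (hW _).1 h9 1
      rw [h7, exp_add']
      exact hmul _ hx2 _ (hneg _ h8)
  choose w hw1 hw2 hw3 hw4 using hseq
  have hw5 : ∀ n, 0 < ‖w n‖ := fun n => norm_pos_iff.2 (hw2 n)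
  have hw6 : Tendsto (fun n => ‖w n‖) atTop (𝓝 0) :=
    squeeze_zero (fun n => norm_nonneg _) (fun n => (hw3 n).le) tendsto_one_div_add_atTop_nhds_zero_nat
  have : ProperSpace A := FiniteDimensional.proper_real A
  obtain ⟨u, hu, φ, hφ, hlim⟩ := (isCompact_sphere (0 : A) 1).tendsto_subseq
    (x := fun n => (‖w n‖)⁻¹ • w n) (fun n => by
      rw [mem_sphere_zero_iff_norm, norm_smul, norm_inv, norm_norm]
      exact inv_mul_cancel₀ (hw5 n).ne')
  have hu1 : ‖u‖ = 1 := by simpa using hu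
  have huW' : u ∈ W' := by
    have h2 : IsClosed (W' : Set A) := Submodule.closed_of_finiteDimensional W'
    exact h2.mem_of_tendsto hlim (Eventually.of_forall fun n => W'.smul_mem _ (hw1 _))
  have huW : u ∈ W := by
    rw [hW]
    intro t
    have h2 : Tendsto (fun n => ((⌊t / ‖w (φ n)‖⌋ : ℤ) : ℝ) * ‖w (φ n)‖) atTop (𝓝 t) := by
      have h3 : Tendsto (fun n => ‖w (φ n)‖) atTop (𝓝 0) := hw6.comp hφ.tendsto_atTop
      rw [tendsto_iff_norm_sub_tendsto_zero]
      refine squeeze_zero (fun n => norm_nonneg _) (fun n => ?_) h3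
      have h4 := hw5 (φ n)
      have h5 : t = t / ‖w (φ n)‖ * ‖w (φ n)‖ := by field_simp
      have h6 : ((⌊t / ‖w (φ n)‖⌋ : ℤ) : ℝ) * ‖w (φ n)‖ - t =
          -(Int.fract (t / ‖w (φ n)‖) * ‖w (φ n)‖) := by
        rw [Int.fract]
        nth_rewrite 2 [h5]
        ring
      rw [h6, norm_neg, norm_mul, norm_norm, Real.norm_eq_abs, abs_of_nonneg (Int.fract_nonneg _)]
      have h7 := (Int.fract_lt_one (t / ‖w (φ n)‖)).le
      nlinarith
    have h3 : Tendsto (fun n => ((⌊t / ‖w (φ n)‖⌋ : ℤ) : ℝ) • w (φ n)) atTop (𝓝 (t • u)) := by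
      have h4 := h2.smul hlim
      refine h4.congr fun n => ?_
      rw [Function.comp_apply, smul_smul, mul_assoc, mul_inv_cancel₀ (hw5 _).ne', mul_one]
    have h4 := (exp_cont.tendsto (t • u)).comp h3
    exact hS.mem_of_tendsto h4 (Eventually.of_forall fun n => hzpow _ _ (hw4 _))
  have h2 : u ∈ W ⊓ W' := ⟨huW, huW'⟩
  rw [hW'.inf_eq_bot, Submodule.mem_bot] at h2
  rw [h2, norm_zero] at hu1
  exact zero_ne_one hu1

/-- Elements of a compact group of a commutative algebra become of finite order after multiplication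
with the exponential of a small vector tangent to the group. -/
theorem torsion_alg (S : Set A) (hS : IsClosed S) (h1 : (1 : A) ∈ S)
    (hmul : ∀ a ∈ S, ∀ b ∈ S, a * b ∈ S) (hinv : ∀ a ∈ S, ∃ b ∈ S, a * b = 1)
    (g : A) (hg : g ∈ S) (hrec : ∀ η : ℝ, 0 < η → ∃ n : ℕ, 1 ≤ n ∧ ‖g ^ n - 1‖ < η) :
    ∃ W : Submodule ℝ A, (∀ x ∈ W, exp x ∈ S) ∧
      ∀ ε : ℝ, 0 < ε → ∃ x ∈ W, ‖x‖ < ε ∧ ∃ n : ℕ, 1 ≤ n ∧ (exp x * g) ^ n = 1 := by
  obtain ⟨W, hW, δ, hδ, hW2⟩ := closed_subgroup S hS h1 hmul hinv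
  refine ⟨W, hW, fun ε hε => ?_⟩
  obtain ⟨η, hη, hon⟩ := exp_onto (A := A) (min ε δ) (lt_min hε hδ)
  obtain ⟨n, hn, hgn⟩ := hrec η hη
  obtain ⟨y, hy, hyg⟩ := hon _ hgn
  have hyS : exp y ∈ S := by
    rw [hyg]
    clear hgn hyg
    induction n with
    | zero => simpa using h1
    | succ n ih =>
      rcases Nat.eq_zero_or_pos n with h0 | h0
      · subst h0
        simpa using hg
      · rw [pow_succ]
        exact hmul _ (ih h0) _ hg
  have hyW := hW2 y (hy.trans_le (min_le_right _ _)) hyS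
  have hn0 : (0 : ℝ) < n := by exact_mod_cast hn
  refine ⟨-((n : ℝ)⁻¹ • y), W.neg_mem (W.smul_mem _ hyW), ?_, n, hn, ?_⟩
  · rw [norm_neg, norm_smul, norm_inv, Real.norm_eq_abs, abs_of_pos hn0]
    have h2 : (n : ℝ)⁻¹ ≤ 1 := by
      rw [inv_le_one₀ hn0]
      exact_mod_cast hn
    have h3 : ‖y‖ < ε := hy.trans_le (min_le_left _ _)
    have h4 := norm_nonneg y
    nlinarith
  · rw [mul_pow, ← exp_nsmul', ← hyg, ← exp_add', smul_neg, smul_smul, mul_inv_cancel₀ hn0.ne',
      one_smul, neg_add_cancel, exp_zero]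

end alg

section grp

variable {G : Type*} [Group G] [TopologicalSpace G] [CompactSpace G] {q : ℕ}
  (ι : G →* Matrix (Fin q) (Fin q) ℂ)

theorem recur (hc : Continuous ι) (g : G) (O : Set (Matrix (Fin q) (Fin q) ℂ)) (hO : O ∈ 𝓝 1) :
    ∃ n : ℕ, 1 ≤ n ∧ ι g ^ n ∈ O := by
  have : FirstCountableTopology (Matrix (Fin q) (Fin q) ℂ) :=
    inferInstanceAs (FirstCountableTopology (Fin q → Fin q → ℂ))
  have hK : IsCompact (range ι) := isCompact_range hc
  obtain ⟨p, hp, φ, hφ, hlim⟩ := (hK.prod hK).tendsto_subseq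
    (x := fun n : ℕ => ((ι (g ^ n), ι ((g ^ n)⁻¹)) : Matrix (Fin q) (Fin q) ℂ × Matrix (Fin q) (Fin q) ℂ))
    (fun n => ⟨mem_range_self _, mem_range_self _⟩)
  have h1 : Tendsto (fun n => ι (g ^ φ n)) atTop (𝓝 p.1) := (continuous_fst.tendsto p).comp hlim
  have h2 : Tendsto (fun n => ι ((g ^ φ n)⁻¹)) atTop (𝓝 p.2) := (continuous_snd.tendsto p).comp hlim
  have h3 : p.1 * p.2 = 1 := by
    have h4 := h1.mul h2
    have h5 : (fun n => ι (g ^ φ n) * ι ((g ^ φ n)⁻¹)) = fun _ => (1 : Matrix (Fin q) (Fin q) ℂ) := by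
      funext n
      rw [← map_mul, mul_inv_cancel, map_one]
    rw [h5] at h4
    exact (tendsto_nhds_unique h4 tendsto_const_nhds)
  have h4 : Tendsto (fun n => ι (g ^ φ (n + 1)) * ι ((g ^ φ n)⁻¹)) atTop (𝓝 1) := by
    rw [← h3]
    exact ((tendsto_add_atTop_iff_nat 1).2 h1).mul h2
  obtain ⟨N, hN⟩ := (h4.eventually hO).exists
  have h6 : φ N < φ (N + 1) := hφ (Nat.lt_succ_self N)
  refine ⟨φ (N + 1) - φ N, by omega, ?_⟩
  rw [← map_mul] at hN
  have h7 : g ^ φ (N + 1) * (g ^ φ N)⁻¹ = g ^ (φ (N + 1) - φ N) := by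
    rw [mul_inv_eq_iff_eq_mul, ← pow_add]
    congr 1
    omega
  rw [h7, map_pow] at hN
  exact hN

theorem exists_small_abs {A : Type*} [NormedCommRing A] [NormedAlgebra ℝ A] [FiniteDimensional ℝ A]
    (val : A →ₐ[ℝ] Matrix (Fin q) (Fin q) ℂ) (hval : Function.Injective val)
    (hc : Continuous ι) (hi : Function.Injective ι) (g : G) (gA : A) (hgA : val gA = ι g) :
    ∃ (j : ℕ) (c : EuclideanSpace ℝ (Fin j) → G), (∀ s t, c (s + t) = c s * c t) ∧
      (∀ a b, ContDiff ℝ ∞ (fun s => ι (c s) a b)) ∧ (∀ s, c s * g = g * c s) ∧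
      ∀ ε : ℝ, 0 < ε → ∃ s, ‖s‖ < ε ∧ ∃ n : ℕ, 1 ≤ n ∧ (c s * g) ^ n = 1 := by
  have hemb : Topology.IsClosedEmbedding val.toLinearMap :=
    LinearMap.isClosedEmbedding_of_injective (LinearMap.ker_eq_bot.2 hval)
  have hvc : Continuous val := hemb.continuous
  obtain ⟨S, hS⟩ : ∃ S : Set A, ∀ x : A, x ∈ S ↔ ∃ h : G, ι h = val x :=
    ⟨{x : A | ∃ h : G, ι h = val x}, fun x => Iff.rfl⟩
  have hSc : IsClosed S := by
    have h1 : IsClosed (range ι) := (isCompact_range hc).isClosed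
    have h2 : S = val ⁻¹' (range ι) := by
      ext x
      rw [hS]
      rfl
    rw [h2]
    exact h1.preimage hvc
  have h1S : (1 : A) ∈ S := by
    rw [hS]
    exact ⟨1, by rw [map_one, map_one]⟩
  have hmul : ∀ a ∈ S, ∀ b ∈ S, a * b ∈ S := by
    intro a ha b hb
    rw [hS] at ha hb ⊢
    obtain ⟨x, hx⟩ := ha
    obtain ⟨y, hy⟩ := hb
    exact ⟨x * y, by rw [map_mul, map_mul, hx, hy]⟩
  have hinv : ∀ a ∈ S, ∃ b ∈ S, a * b = 1 := by
    intro a ha
    obtain ⟨x, hx⟩ := (hS a).1 ha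
    have h1 : ι x⁻¹ * val a = 1 := by
      rw [← hx, ← map_mul, inv_mul_cancel, map_one]
    have hinj : Function.Injective (LinearMap.mulLeft ℝ a) := by
      intro u v huv
      have h2 : val a * val u = val a * val v := by
        rw [← map_mul, ← map_mul]
        exact congrArg val huv
      apply hval
      calc val u = (ι x⁻¹ * val a) * val u := by rw [h1, one_mul]
        _ = ι x⁻¹ * (val a * val u) := by rw [mul_assoc]
        _ = (ι x⁻¹ * val a) * val v := by rw [h2, mul_assoc]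
        _ = val v := by rw [h1, one_mul]
    obtain ⟨b, hb⟩ := (LinearMap.injective_iff_surjective.1 hinj) 1
    have hab : a * b = 1 := hb
    have h2 : val a * val b = 1 := by rw [← map_mul, hab, map_one]
    refine ⟨b, (hS b).2 ⟨x⁻¹, ?_⟩, hab⟩
    calc ι x⁻¹ = ι x⁻¹ * (val a * val b) := by rw [h2, mul_one]
      _ = val b := by rw [← mul_assoc, h1, one_mul]
  have hrec : ∀ η : ℝ, 0 < η → ∃ n : ℕ, 1 ≤ n ∧ ‖gA ^ n - 1‖ < η := by
    intro η hη
    have h1 : ball (1 : A) η ∈ 𝓝 (1 : A) := ball_mem_nhds _ hη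
    have h2 : 𝓝 (1 : A) = comap val (𝓝 (val 1)) := hemb.isInducing.nhds_eq_comap 1
    rw [h2, map_one] at h1
    obtain ⟨O, hO, h3⟩ := h1
    obtain ⟨n, hn, h4⟩ := recur ι hc g O hO
    refine ⟨n, hn, ?_⟩
    have h5 : gA ^ n ∈ ball (1 : A) η := h3 (by
      show val (gA ^ n) ∈ O
      rw [map_pow, hgA]
      exact h4)
    rwa [mem_ball, dist_eq_norm] at h5
  obtain ⟨W, hW, htor⟩ := torsion_alg (A := A) S hSc h1S hmul hinv gA
    ((hS _).2 ⟨g, hgA.symm⟩) hrec
  have hcG : ∀ x : W, ∃ h : G, ι h = val (exp (x : A)) :=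
    fun x => (hS _).1 (hW x x.2)
  choose d hd using hcG
  have hdadd : ∀ x y : W, d (x + y) = d x * d y := by
    intro x y
    apply hi
    rw [map_mul, hd, hd, hd, ← map_mul]
    congr 1
    exact exp_add' (A := A) _ _
  have hdg : ∀ x : W, d x * g = g * d x := by
    intro x
    apply hi
    rw [map_mul, map_mul, hd, ← hgA, ← map_mul, ← map_mul, mul_comm]
  -- linear coordinates
  obtain ⟨e⟩ : Nonempty (EuclideanSpace ℝ (Fin (Module.finrank ℝ W)) ≃L[ℝ] W) :=
    ⟨(ContinuousLinearEquiv.ofFinrankEq (by rw [finrank_euclideanSpace_fin]))⟩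
  refine ⟨Module.finrank ℝ W, fun s => d (e s), fun s t => ?_, ?_, fun s => hdg _, ?_⟩
  · show d (e (s + t)) = d (e s) * d (e t)
    rw [map_add, hdadd]
  · intro a b
    have h1 : ContDiff ℝ ∞ (fun s => exp ((e s : W) : A)) :=
      (exp_smooth (A := A)).comp ((W.subtypeL.contDiff).comp e.contDiff)
    let L : A →ₗ[ℝ] ℂ :=
      { toFun := fun x => (val x) a b
        map_add' := fun x y => by rw [map_add]; rfl
        map_smul' := fun r x => by rw [map_smul]; rfl }
    have h2 : ContDiff ℝ ∞ (fun s => (LinearMap.toContinuousLinearMap L) (exp ((e s : W) : A))) :=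
      (LinearMap.toContinuousLinearMap L).contDiff.comp h1
    have h3 : (fun s => ι (d (e s)) a b) =
        fun s => (LinearMap.toContinuousLinearMap L) (exp ((e s : W) : A)) := by
      funext s
      rw [hd]
      rfl
    show ContDiff ℝ ∞ (fun s => ι (d (e s)) a b)
    rw [h3]
    exact h2
  · intro ε hε
    have h1 : ∃ δ : ℝ, 0 < δ ∧ ∀ x : W, ‖x‖ < δ → ‖e.symm x‖ < ε := by
      have h2 : Tendsto (fun x : W => ‖e.symm x‖) (𝓝 0) (𝓝 ‖e.symm 0‖) :=
        (e.symm.continuous.norm).tendsto 0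
      rw [map_zero, norm_zero] at h2
      obtain ⟨δ, hδ, h3⟩ := Metric.eventually_nhds_iff.1 (h2.eventually (gt_mem_nhds hε))
      exact ⟨δ, hδ, fun x hx => h3 (by rwa [dist_zero_right])⟩
    obtain ⟨δ, hδ, h3⟩ := h1
    obtain ⟨x, hxW, hxδ, n, hn, hxn⟩ := htor δ hδ
    refine ⟨e.symm ⟨x, hxW⟩, h3 _ hxδ, n, hn, ?_⟩
    show (d (e (e.symm ⟨x, hxW⟩)) * g) ^ n = 1
    rw [e.apply_symm_apply]
    apply hi
    rw [map_pow, map_mul, hd, map_one, ← hgA, ← map_mul, ← map_pow, hxn, map_one]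

end grp

section fin

attribute [local instance] Matrix.linftyOpNormedRing Matrix.linftyOpNormedAlgebra

variable {G : Type*} [Group G] [TopologicalSpace G] [CompactSpace G] {q : ℕ}
  (ι : G →* Matrix (Fin q) (Fin q) ℂ)

/-- Every element of a compact group of matrices becomes of finite order after multiplication with
arbitrarily small elements of a linear torus commuting with it. -/
theorem exists_small (hc : Continuous ι) (hi : Function.Injective ι) (g : G) :
    ∃ (j : ℕ) (c : EuclideanSpace ℝ (Fin j) → G), (∀ s t, c (s + t) = c s * c t) ∧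
      (∀ a b, ContDiff ℝ ∞ (fun s => ι (c s) a b)) ∧ (∀ s, c s * g = g * c s) ∧
      ∀ ε : ℝ, 0 < ε → ∃ s, ‖s‖ < ε ∧ ∃ n : ℕ, 1 ≤ n ∧ (c s * g) ^ n = 1 := by
  obtain ⟨C, hC⟩ : ∃ C : Subalgebra ℝ (Matrix (Fin q) (Fin q) ℂ), C = Algebra.adjoin ℝ {ι g} :=
    ⟨_, rfl⟩
  have hgC : ι g ∈ C := by
    rw [hC]
    exact Algebra.self_mem_adjoin_singleton ℝ _
  have hcomm : ∀ x y : C, x * y = y * x := by
    have h1 : ∀ x ∈ C, ∀ y ∈ C, x * y = y * x := by
      rw [hC]
      intro x hx y hy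
      exact (Algebra.commute_of_mem_adjoin_singleton_of_commute hy
        (Algebra.commute_of_mem_adjoin_self hx).symm).eq
    intro x y
    exact Subtype.ext (h1 x x.2 y y.2)
  let nc : NormedCommRing C := { (inferInstance : NormedRing C) with mul_comm := hcomm }
  let na : NormedAlgebra ℝ C := { (inferInstance : Algebra ℝ C) with
    norm_smul_le := fun a b => norm_smul_le a b }
  have hfd : FiniteDimensional ℝ C := inferInstanceAs (FiniteDimensional ℝ C)
  exact exists_small_abs ι (A := C) C.val Subtype.val_injective hc hi g ⟨ι g, hgC⟩ rfl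

end fin

end Pool.Agent.TH80.CLX
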