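import Pool.Agent.H66.L.S8.TH80.CLX.Defs
import Pool.Agent.H66.L.S8.TH80.CLX.Tors
import Pool.Agent.H66.L.S8.TH80.CLX.LFam

/-!
# Closing on homogeneous periodic submanifolds
-/

set_option autoImplicit false
set_option linter.unusedSectionVars false

open scoped Manifold ContDiff Topology NNReal
open Filter Set Metric

universe u

namespace Pool.Agent.TH80.CLX

open Pool.Agent.H718R2.G Pool.Agent.W564.SC Pool.Agent.TH290.CL

variable {n : ℕ} {N : Type u} [TopologicalSpace N] [T2Space N] [CompactSpace N]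
  [ChartedSpace (V n) N] [IsManifold (𝓡 n) ∞ N]

theorem closable_of_homPer (r : ℕ∞) (hr : 1 ≤ r) (F : DiffM n N r) (z : N)
    (h : IsHomPer n N F z) : Closable n N r F z := by
  classical
  intro U hU hFU
  obtain ⟨G, iG, iT, iC, q, ι, O, act, hact, hzO, m, hm1, ⟨g, hg⟩, hcom, hdis⟩ := h
  obtain ⟨j, c, hcadd, hcs, hcg, hct⟩ := exists_small ι hact.rep_cont hact.rep_inj g
  have hc0 : c 0 = 1 := by
    have h1 := hcadd 0 0
    rw [add_zero] at h1
    exact (mul_eq_left.1 h1.symm)
  have hinv : ∀ (a : G), ∀ y ∈ O, act a⁻¹ (act a y) = y := by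
    intro a y hy
    rw [← hact.mul _ _ y hy, inv_mul_cancel, hact.one y hy]
  -- saturations of compact sets
  have hsat : ∀ K : Set N, IsCompact K → K ⊆ O →
      IsCompact ((fun p : G × N => act p.1 p.2) '' (univ ×ˢ K)) := by
    intro K hK hKO
    exact (isCompact_univ.prod hK).image_of_continuousOn
      (hact.cont.mono (prod_mono_right hKO))
  obtain ⟨C, hC⟩ : ∃ C : Set N, C = (fun p : G × N => act p.1 p.2) '' (univ ×ˢ {z}) := ⟨_, rfl⟩
  have hCc : IsCompact C := by
    rw [hC]
    exact hsat _ isCompact_singleton (singleton_subset_iff.2 hzO)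
  have hCmem : ∀ a : G, act a z ∈ C := by
    intro a
    rw [hC]
    exact ⟨(a, z), ⟨mem_univ _, rfl⟩, rfl⟩
  have hCmem' : ∀ y ∈ C, ∃ a : G, act a z = y := by
    intro y hy
    rw [hC] at hy
    obtain ⟨⟨a, w⟩, ⟨-, hw⟩, ha⟩ := hy
    rw [mem_singleton_iff] at hw
    refine ⟨a, ?_⟩
    rw [← ha]
    show act a z = act a w
    rw [show w = z from hw]
  have hCO : C ⊆ O := by
    intro y hy
    obtain ⟨a, ha⟩ := hCmem' y hy
    rw [← ha]
    exact hact.maps a z hzO
  obtain ⟨C0, hC0⟩ : ∃ C0 : Set N, C0 = ⋃ i ∈ Finset.Ico 1 m, F^[i] '' C := ⟨_, rfl⟩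
  have hFc : ∀ i : ℕ, Continuous (F^[i]) := fun i => F.continuous.iterate i
  have hC0c : IsClosed C0 := by
    rw [hC0]
    exact isClosed_biUnion_finset fun i _ => (hCc.image (hFc i)).isClosed
  have hdisj0 : Disjoint C0 C := by
    rw [Set.disjoint_left]
    intro y hy1 hy2
    rw [hC0] at hy1
    simp only [mem_iUnion, Finset.mem_Ico] at hy1
    obtain ⟨i, ⟨hi1, hi2⟩, w, hw, hwy⟩ := hy1
    obtain ⟨a, ha⟩ := hCmem' w hw
    obtain ⟨b, hb⟩ := hCmem' y hy2
    apply hdis i hi1 hi2 a b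
    rw [ha, hwy, hb]
  -- a compact neighbourhood of the orbit
  obtain ⟨O₁, hO₁, hCO₁, hO₁O, hO₁c⟩ := exists_open_between_and_isCompact_closure hCc hact.isOpen hCO
  have hD : IsClosed (C0 ∪ O₁ᶜ) := hC0c.union hO₁.isClosed_compl
  have hdisj : Disjoint (C0 ∪ O₁ᶜ) C := by
    rw [Set.disjoint_union_left]
    exact ⟨hdisj0, Set.disjoint_left.2 fun y hy hyC => hy (hCO₁ hyC)⟩
  obtain ⟨f, hf0, hf1, -⟩ := exists_contMDiffMap_zero_one_of_isClosed (n := ⊤) (𝓡 n) hD
    hCc.isClosed hdisj
  have hρ : ContMDiff (𝓡 n) 𝓘(ℝ, ℝ) ∞ (f : N → ℝ) := f.contMDiff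
  obtain ⟨K, hKdef⟩ : ∃ K : Set N, K = (fun p : G × N => act p.1 p.2) '' (univ ×ˢ closure O₁) :=
    ⟨_, rfl⟩
  have hKc : IsCompact K := by
    rw [hKdef]
    exact hsat _ hO₁c hO₁O
  have hKO : K ⊆ O := by
    rw [hKdef]
    rintro y ⟨⟨a, w⟩, ⟨-, hw⟩, ha⟩
    rw [← ha]
    exact hact.maps a w (hO₁O hw)
  have hρ0 : ∀ y ∈ O, y ∉ K → ∀ s, f (act (c s) y) = 0 := by
    intro y hy hyK s
    apply hf0
    right
    intro h1
    apply hyK
    rw [hKdef]
    exact ⟨((c s)⁻¹, act (c s) y), ⟨mem_univ _, subset_closure h1⟩, hinv _ y hy⟩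
  have hA : LAct j n N O (fun s y => act (c s) y) :=
    { isOpen := hact.isOpen
      maps := fun s y hy => hact.maps _ y hy
      smooth := hact.smooth j c hcs
      zero := fun y hy => by
        show act (c 0) y = y
        rw [hc0, hact.one y hy]
      add := fun s t y hy => by
        show act (c (s + t)) y = act (c s) (act (c t) y)
        rw [hcadd, hact.mul _ _ y hy] }
  -- the family
  obtain ⟨H, κ, hκ, hH0, hfam, hH⟩ := lact_fam hA hρ K hKc hKc.isClosed hKO hρ0 r F
  obtain ⟨κ', hκ', hmem⟩ := fam_mem r hr H hfam z U hU (by rw [hH0]; exact hFU)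
  obtain ⟨s, hs, k, hk, hsk⟩ := hct (min κ κ') (lt_min hκ hκ')
  refine ⟨H s, hmem s (hs.trans_le (min_le_right _ _)), m * k, Nat.mul_pos hm1 hk, ?_⟩
  have hHs := hH s (hs.trans_le (min_le_left _ _))
  -- the orbit of a point of the first orbit
  have h1 : ∀ (a : G) (i : ℕ), 1 ≤ i → i ≤ m → (H s)^[i] (act a z) = F^[i] (act (c s * a) z) := by
    intro a i hi
    induction i with
    | zero => omega
    | succ i ih =>
      intro him
      rcases Nat.eq_zero_or_pos i with h0 | h0
      · subst h0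
        have h2 : f (act a z) = 1 := hf1 (hCmem a)
        show H s (act a z) = F (act (c s * a) z)
        rw [hHs, if_pos (hCO (hCmem a)), h2, one_smul]
        show F (act (c s) (act a z)) = _
        rw [← hact.mul _ _ z hzO]
      · rw [Function.iterate_succ_apply', ih h0 (by omega), hHs,
          Function.iterate_succ_apply' F]
        have h2 : f (F^[i] (act (c s * a) z)) = 0 := hf0 (by
          left
          rw [hC0]
          simp only [mem_iUnion, Finset.mem_Ico]
          exact ⟨i, ⟨h0, by omega⟩, _, hCmem _, rfl⟩)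
        congr 1
        by_cases hO : F^[i] (act (c s * a) z) ∈ O
        · rw [if_pos hO, h2, zero_smul]
          show act (c 0) _ = _
          rw [hc0, hact.one _ hO]
        · rw [if_neg hO]
  have h2 : ∀ a : G, (H s)^[m] (act a z) = act (c s * a * g) z := by
    intro a
    rw [h1 a m hm1 le_rfl, hcom, hg, ← hact.mul _ _ z hzO]
  have h3 : ∀ l : ℕ, (H s)^[m * l] z = act ((c s * g) ^ l) z := by
    intro l
    induction l with
    | zero =>
      rw [pow_zero, hact.one z hzO]
      rfl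
    | succ l ih =>
      rw [Nat.mul_succ, Nat.add_comm, Function.iterate_add_apply, ih, h2]
      congr 1
      have h4 : Commute g (c s * g) := by
        show g * (c s * g) = (c s * g) * g
        rw [← mul_assoc, ← hcg]
      rw [pow_succ', mul_assoc, (h4.pow_right l).symm.eq, ← mul_assoc]
  rw [h3, hsk, hact.one z hzO]

end Pool.Agent.TH80.CLX
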